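import Pool.Agent.H88.WR.Targets
import Pool.Agent.H85.JNBasic

/-!
# Row ES: the theorem of Eberlein and Smulian for reflexive spaces
-/

set_option autoImplicit false

open Filter Topology Set Pool.Agent.H85.WMP Pool.Agent.H88.WR

namespace Pool.Agent.H1.WR

section

variable {𝕜 : Type} [RCLike 𝕜] {E : Type} [NormedAddCommGroup E] [NormedSpace 𝕜 E]

/-- a functional which vanishes on a closed subspace and not at a point outside -/
theorem exists_ann (Y : Submodule 𝕜 E) (hY : IsClosed (Y : Set E)) (z : E) (hz : z ∉ Y) :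
    ∃ f : StrongDual 𝕜 E, (∀ y ∈ Y, f y = 0) ∧ f z ≠ 0 := by
  haveI : IsClosed (Y : Set E) := hY
  have h1 : ‖Y.mkQL z‖ ≠ 0 := by
    rw [norm_ne_zero_iff]
    intro h
    exact hz ((Submodule.Quotient.mk_eq_zero Y).1 h)
  obtain ⟨g, -, hg⟩ := exists_dual_vector 𝕜 (Y.mkQL z) h1
  refine ⟨g.comp Y.mkQL, fun y hy => ?_, ?_⟩
  · have h2 : Y.mkQL y = 0 := (Submodule.Quotient.mk_eq_zero Y).2 hy
    change g (Y.mkQL y) = 0
    rw [h2, map_zero]
  · change g (Y.mkQL z) ≠ 0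
    rw [hg]
    exact_mod_cast h1

end

theorem pf_ES (𝕜 : Type) [RCLike 𝕜] : T_ES 𝕜 := by
  intro E _ _ hE x C hx
  let Y : Submodule 𝕜 E := (Submodule.span 𝕜 (range x)).topologicalClosure
  have hYc : IsClosed (Y : Set E) := Submodule.isClosed_topologicalClosure _
  have hxY : ∀ n, x n ∈ Y := fun n =>
    Submodule.le_topologicalClosure _ (Submodule.subset_span ⟨n, rfl⟩)
  have hsep : TopologicalSpace.IsSeparable (Y : Set E) :=
    (((countable_range x).isSeparable).span (R := 𝕜)).closure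
  obtain ⟨c, hc, hYc'⟩ := hsep
  have hcne : c.Nonempty := by
    have h0 : (0 : E) ∈ closure c := hYc' Y.zero_mem
    exact closure_nonempty_iff.1 ⟨0, h0⟩
  obtain ⟨y, rfl⟩ := hc.exists_eq_range hcne
  choose f hf1 hf2 using fun j => exists_dual_vector'' 𝕜 (y j)
  have huniq : ∀ w ∈ Y, (∀ j, f j w = 0) → w = 0 := by
    intro w hw hfw
    by_contra hne
    have hpos : 0 < ‖w‖ := norm_pos_iff.2 hne
    obtain ⟨_, ⟨j, rfl⟩, hj⟩ := Metric.mem_closure_iff.1 (hYc' hw) (‖w‖ / 2) (by positivity)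
    rw [dist_eq_norm] at hj
    have h1 : ‖y j‖ ≤ ‖w - y j‖ := by
      have h2 : ‖f j (y j)‖ = ‖y j‖ := by
        rw [hf2]
        simp
      have h3 : f j (w - y j) = - f j (y j) := by
        rw [map_sub, hfw j, zero_sub]
      rw [← h2, ← norm_neg, ← h3]
      calc ‖f j (w - y j)‖ ≤ ‖f j‖ * ‖w - y j‖ := (f j).le_opNorm _
        _ ≤ 1 * ‖w - y j‖ := mul_le_mul_of_nonneg_right (hf1 j) (norm_nonneg _)
        _ = _ := one_mul _
    have h4 : ‖w‖ ≤ ‖w - y j‖ + ‖y j‖ := by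
      have := norm_add_le (w - y j) (y j)
      rwa [sub_add_cancel] at this
    linarith
  -- the diagonal subsequence
  have hC : 0 ≤ C := (norm_nonneg _).trans (hx 0)
  have hcomp : IsCompact (Set.pi univ fun _ : ℕ => Metric.closedBall (0 : 𝕜) C) :=
    isCompact_univ_pi fun _ => isCompact_closedBall 0 C
  obtain ⟨a, -, φ, hφ, hlim⟩ := hcomp.tendsto_subseq (x := fun n j => f j (x n)) fun n j _ => by
    rw [mem_closedBall_zero_iff]
    calc ‖f j (x n)‖ ≤ ‖f j‖ * ‖x n‖ := (f j).le_opNorm _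
      _ ≤ 1 * C := mul_le_mul (hf1 j) (hx n) (norm_nonneg _) zero_le_one
      _ = C := one_mul _
  have hlim' : ∀ j, Tendsto (fun n => f j (x (φ n))) atTop (𝓝 (a j)) := fun j =>
    (tendsto_pi_nhds.1 hlim) j
  -- limits along ultrafilters
  have hU : ∀ U : Ultrafilter ℕ, ∃ z ∈ Y, ∀ g : StrongDual 𝕜 E,
      Tendsto (fun n => g (x (φ n))) U (𝓝 (g z)) := by
    intro U
    obtain ⟨Φ, hΦ⟩ := Pool.Agent.H85.JN.exists_ultra_limit U
      (fun n => NormedSpace.inclusionInDoubleDual 𝕜 E (x (φ n))) C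
      (fun n => (NormedSpace.double_dual_bound 𝕜 E _).trans (hx _))
    obtain ⟨z, rfl⟩ := hE Φ
    refine ⟨z, ?_, hΦ⟩
    by_contra hz
    obtain ⟨g, hg0, hgz⟩ := exists_ann Y hYc z hz
    have h1 : Tendsto (fun n => g (x (φ n))) U (𝓝 (g z)) := hΦ g
    have h2 : (fun n => g (x (φ n))) = fun _ => 0 := funext fun n => hg0 _ (hxY _)
    rw [h2] at h1
    exact hgz (tendsto_nhds_unique h1 tendsto_const_nhds)
  obtain ⟨z, hzY, hz⟩ := hU (Filter.hyperfilter ℕ)
  have hzj : ∀ j, f j z = a j := fun j => by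
    have h1 : Tendsto (fun n => f j (x (φ n))) (Filter.hyperfilter ℕ) (𝓝 (a j)) :=
      (hlim' j).mono_left (by
        rw [← Nat.cofinite_eq_atTop]
        exact Filter.hyperfilter_le_cofinite)
    exact tendsto_nhds_unique (hz (f j)) h1
  refine ⟨z, φ, hφ, fun g => ?_⟩
  rw [tendsto_iff_ultrafilter]
  intro U hUle
  obtain ⟨z', hz'Y, hz'⟩ := hU U
  have h1 : z' - z = 0 := by
    refine huniq _ (Y.sub_mem hz'Y hzY) fun j => ?_
    rw [map_sub, hzj j, sub_eq_zero]
    exact tendsto_nhds_unique (hz' (f j)) ((hlim' j).mono_left hUle)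
  have h2 := hz' g
  rwa [sub_eq_zero.1 h1] at h2

end Pool.Agent.H1.WR
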