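import Pool.Agent.H88.WR.Targets

/-!
# Row RFD: the dual of a reflexive space
-/

set_option autoImplicit false

open Filter Topology Set Pool.Agent.H85.WMP Pool.Agent.H88.WR

namespace Pool.Agent.H1.WR

theorem pf_RFD (𝕜 : Type) [RCLike 𝕜] : T_RFD 𝕜 := by
  intro E _ _ hE Φ
  refine ⟨Φ.comp (NormedSpace.inclusionInDoubleDual 𝕜 E), ?_⟩
  ext Ψ
  obtain ⟨z, rfl⟩ := hE Ψ
  rfl

end Pool.Agent.H1.WR
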